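import Mathlib

/-!
# Continuous weak selections and kings: the relation of a continuous weak selection
-/

set_option autoImplicit false

open Set Filter Topology

namespace Pool.Agent.Q151.King

/-- the strict relation `a < b` (meaning that `a` is selected from `{a, b}`) of a continuous weak
selection on a Hausdorff space -/
structure CWS (X : Type*) [TopologicalSpace X] where
  /-- the relation -/
  lt : X → X → Prop
  irrefl : ∀ a, ¬ lt a a
  asymm : ∀ a b, lt a b → ¬ lt b a
  total : ∀ a b, a ≠ b → lt a b ∨ lt b a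
  op : IsOpen {p : X × X | lt p.1 p.2}

variable {X : Type*} [TopologicalSpace X]

/-- the reversed relation -/
def CWS.rev (r : CWS X) : CWS X where
  lt a b := r.lt b a
  irrefl := r.irrefl
  asymm a b h h' := r.asymm _ _ h h'
  total a b h := r.total b a h.symm
  op := r.op.preimage continuous_swap

/-- no kings -/
def Kingless (r : CWS X) : Prop := ∀ z, ∃ x, ∀ y, (y = z ∨ r.lt y z) → r.lt y x

/-- the points below `x` -/
def CWS.U (r : CWS X) (x : X) : Set X := {y | r.lt y x}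

/-- the points above `x` -/
def CWS.V (r : CWS X) (x : X) : Set X := {y | r.lt x y}

lemma CWS.isOpen_U (r : CWS X) (x : X) : IsOpen (r.U x) :=
  r.op.preimage (by fun_prop : Continuous fun y : X => (y, x))

lemma CWS.isOpen_V (r : CWS X) (x : X) : IsOpen (r.V x) :=
  r.op.preimage (by fun_prop : Continuous fun y : X => (x, y))

lemma CWS.compl_U (r : CWS X) (x : X) : (r.U x)ᶜ = r.V x ∪ {x} := by
  ext y
  simp only [U, V, mem_compl_iff, mem_ofPred_eq, mem_union, mem_singleton_iff]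
  constructor
  · intro h
    by_cases hy : y = x
    · exact Or.inr hy
    · exact Or.inl ((r.total y x hy).resolve_left h)
  · rintro (h | rfl)
    · exact fun h' => r.asymm _ _ h h'
    · exact r.irrefl _

lemma CWS.compl_V (r : CWS X) (x : X) : (r.V x)ᶜ = r.U x ∪ {x} := r.rev.compl_U x

lemma CWS.not_mem_U (r : CWS X) {x y : X} : y ∉ r.U x ↔ (r.lt x y ∨ y = x) := by
  have := r.compl_U x
  rw [← mem_compl_iff, this]; rfl

/-- the quasi-component -/
def Kq (x : X) : Set X := {y | ∀ C : Set X, IsClopen C → x ∈ C → y ∈ C}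

lemma self_mem_Kq (x : X) : x ∈ Kq x := fun _ _ h => h

lemma Kq_sub {x k : X} (hk : k ∈ Kq x) {G : Set X} (hG : IsClopen G) (hkG : k ∈ G) :
    Kq x ⊆ G := by
  intro y hy
  apply hy G hG
  by_contra hx
  exact hk Gᶜ hG.compl hx hkG

lemma Kq_eq {x k : X} (hk : k ∈ Kq x) : Kq k = Kq x := by
  ext y
  constructor
  · intro hy C hC hx
    exact hy C hC (Kq_sub (self_mem_Kq x) hC hx hk)
  · intro hy C hC hkC
    exact Kq_sub hk hC hkC hy

lemma isClosed_Kq (x : X) : IsClosed (Kq x) := by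
  have : Kq x = ⋂ (C : Set X) (_ : IsClopen C) (_ : x ∈ C), C := by
    ext y; simp [Kq]
  rw [this]
  exact isClosed_iInter fun C => isClosed_iInter fun hC => isClosed_iInter fun _ => hC.isClosed

lemma not_mem_Kq {x y : X} (h : y ∉ Kq x) : ∃ C, IsClopen C ∧ x ∈ C ∧ y ∉ C := by
  simp only [Kq, mem_ofPred_eq, not_forall] at h
  obtain ⟨C, hC, hx, hy⟩ := h
  exact ⟨C, hC, hx, hy⟩

/-- separation of the quasi-component from a compact set -/
lemma sep_compact {x : X} {E : Set X} (hE : IsCompact E) (hd : Disjoint E (Kq x)) :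
    ∃ C, IsClopen C ∧ x ∈ C ∧ Disjoint E C := by
  have := hE.induction_on (p := fun s => ∃ C, IsClopen C ∧ x ∈ C ∧ Disjoint s C)
    ⟨univ, isClopen_univ, mem_univ _, empty_disjoint _⟩
    (fun s t hst ⟨C, hC, hx, hd⟩ => ⟨C, hC, hx, hd.mono_left hst⟩)
    (fun s t ⟨C, hC, hx, hd⟩ ⟨C', hC', hx', hd'⟩ =>
      ⟨C ∩ C', hC.inter hC', ⟨hx, hx'⟩,
        disjoint_union_left.mpr ⟨hd.mono_right inter_subset_left, hd'.mono_right inter_subset_right⟩⟩)
    (fun e he => by
      obtain ⟨C, hC, hx, hy⟩ := not_mem_Kq (disjoint_left.mp hd he)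
      exact ⟨Cᶜ, mem_nhdsWithin_of_mem_nhds (hC.compl.isOpen.mem_nhds hy), C, hC, hx,
        disjoint_compl_left⟩)
  exact this

lemma CWS.clopen_V (r : CWS X) {x : X} {C : Set X} (hC : IsClopen C) (hx : x ∉ C) :
    IsClopen (C ∩ r.V x) := by
  refine ⟨?_, hC.isOpen.inter (r.isOpen_V x)⟩
  have : C ∩ r.V x = C ∩ (r.U x)ᶜ := by
    rw [r.compl_U]
    ext y
    simp only [mem_inter_iff, mem_union, mem_singleton_iff]
    constructor
    · rintro ⟨h1, h2⟩; exact ⟨h1, Or.inl h2⟩
    · rintro ⟨h1, h2 | rfl⟩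
      · exact ⟨h1, h2⟩
      · exact absurd h1 hx
  rw [this]
  exact hC.isClosed.inter (r.isOpen_U x).isClosed_compl

lemma CWS.relK (r : CWS X) {x y : X} (h : x ∉ Kq y) (hxy : r.lt x y) {y' : X}
    (hy' : y' ∈ Kq y) : r.lt x y' := by
  obtain ⟨C, hC, hyC, hxC⟩ := not_mem_Kq h
  exact (hy' _ (r.clopen_V hC hxC) ⟨hyC, hxy⟩).2

lemma CWS.relK' (r : CWS X) {x y : X} (h : x ∉ Kq y) (hxy : r.lt y x) {y' : X}
    (hy' : y' ∈ Kq y) : r.lt y' x := r.rev.relK h hxy hy'

/-- put a clopen set at the bottom -/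
def CWS.below (r : CWS X) (B : Set X) (hB : IsClopen B) : CWS X where
  lt a b := (a ∈ B ∧ b ∉ B) ∨ ((a ∈ B ↔ b ∈ B) ∧ r.lt a b)
  irrefl a h := by
    rcases h with h | h
    · exact h.2 h.1
    · exact r.irrefl a h.2
  asymm a b h h' := by
    rcases h with h | h <;> rcases h' with h' | h'
    · exact h'.2 h.1
    · exact h.2 (h'.1.mpr h.1)
    · exact h'.2 (h.1.mpr h'.1)
    · exact r.asymm _ _ h.2 h'.2
  total a b hab := by
    by_cases ha : a ∈ B <;> by_cases hb : b ∈ B
    · rcases r.total a b hab with h | h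
      · exact Or.inl (Or.inr ⟨by tauto, h⟩)
      · exact Or.inr (Or.inr ⟨by tauto, h⟩)
    · exact Or.inl (Or.inl ⟨ha, hb⟩)
    · exact Or.inr (Or.inl ⟨hb, ha⟩)
    · rcases r.total a b hab with h | h
      · exact Or.inl (Or.inr ⟨by tauto, h⟩)
      · exact Or.inr (Or.inr ⟨by tauto, h⟩)
  op := by
    have h1 : IsClopen {p : X × X | p.1 ∈ B} := hB.preimage continuous_fst
    have h2 : IsClopen {p : X × X | p.2 ∈ B} := hB.preimage continuous_snd
    have e : {p : X × X | (p.1 ∈ B ∧ p.2 ∉ B) ∨ ((p.1 ∈ B ↔ p.2 ∈ B) ∧ r.lt p.1 p.2)} =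
        ({p : X × X | p.1 ∈ B} ∩ {p : X × X | p.2 ∈ B}ᶜ) ∪
        ((({p : X × X | p.1 ∈ B} ∩ {p : X × X | p.2 ∈ B}) ∪
          ({p : X × X | p.1 ∈ B}ᶜ ∩ {p : X × X | p.2 ∈ B}ᶜ)) ∩ {p : X × X | r.lt p.1 p.2}) := by
      ext p
      simp only [mem_ofPred_eq, mem_union, mem_inter_iff, mem_compl_iff]
      tauto
    rw [e]
    exact (h1.isOpen.inter h2.compl.isOpen).union
      (((h1.isOpen.inter h2.isOpen).union (h1.compl.isOpen.inter h2.compl.isOpen)).inter r.op)

/-- case 1: an unbounded continuous function into `ℕ` -/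
lemma case1 (r : CWS X) {f : X → ℕ} (hf : Continuous f) (hunb : ∀ n, ∃ x, n < f x) :
    ∃ r' : CWS X, Kingless r' := by
  refine ⟨{ lt := fun a b => f a < f b ∨ (f a = f b ∧ r.lt a b)
            irrefl := ?_, asymm := ?_, total := ?_, op := ?_ }, ?_⟩
  · rintro a (h | h)
    · omega
    · exact r.irrefl a h.2
  · rintro a b (h | h) (h' | h')
    · omega
    · omega
    · omega
    · exact r.asymm _ _ h.2 h'.2
  · intro a b hab
    rcases lt_trichotomy (f a) (f b) with h | h | h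
    · exact Or.inl (Or.inl h)
    · rcases r.total a b hab with h' | h'
      · exact Or.inl (Or.inr ⟨h, h'⟩)
      · exact Or.inr (Or.inr ⟨h.symm, h'⟩)
    · exact Or.inr (Or.inl h)
  · have h1 : IsOpen {p : X × X | f p.1 < f p.2} :=
      isOpen_lt (hf.comp continuous_fst) (hf.comp continuous_snd)
    have h2 : IsOpen {p : X × X | f p.1 = f p.2} := by
      have : Continuous fun p : X × X => (f p.1, f p.2) := by fun_prop
      exact (isOpen_discrete {q : ℕ × ℕ | q.1 = q.2}).preimage this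
    exact h1.union (h2.inter r.op)
  · intro z
    obtain ⟨x, hx⟩ := hunb (f z)
    refine ⟨x, ?_⟩
    rintro y (rfl | h)
    · exact Or.inl hx
    · rcases h with h | h
      · exact Or.inl (h.trans hx)
      · exact Or.inl (h.1 ▸ hx)

end Pool.Agent.Q151.King
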