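import Pool.Agent.Q151.King.Two

/-!
# Compact quasi-components
-/

set_option autoImplicit false

open Set Filter Topology

namespace Pool.Agent.Q151.King

variable {X : Type*} [TopologicalSpace X]

/-- every infinite subfamily accumulates -/
def Good (V : ℕ → Set X) : Prop :=
  ∀ N : Set ℕ, N.Infinite → ∃ v, ∀ O ∈ 𝓝 v, {n ∈ N | (V n ∩ O).Nonempty}.Infinite

/-- no unbounded continuous function into `ℕ` -/
def NICP (X : Type*) [TopologicalSpace X] : Prop :=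
  ¬ ∃ f : X → ℕ, Continuous f ∧ ∀ n, ∃ x, n < f x

lemma good_of_nicp (h : NICP X) {V : ℕ → Set X} (hV : ∀ n, IsClopen (V n))
    (hne : ∀ n, (V n).Nonempty) (hd : ∀ m n, m < n → Disjoint (V m) (V n)) : Good V := by
  classical
  intro N hN
  by_contra hcon
  push Not at hcon
  apply h
  have hd' : ∀ m n, m ≠ n → Disjoint (V m) (V n) := by
    intro m n hmn
    rcases lt_or_gt_of_ne hmn with h | h
    · exact hd _ _ h
    · exact (hd _ _ h).symm
  let f : X → ℕ := fun x => if hx : ∃ n ∈ N, x ∈ V n then hx.choose + 1 else 0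
  have hf1 : ∀ n ∈ N, ∀ x ∈ V n, f x = n + 1 := by
    intro n hn x hx
    have hex : ∃ n ∈ N, x ∈ V n := ⟨n, hn, hx⟩
    simp only [f, dif_pos hex]
    by_contra hne
    have hne' : hex.choose ≠ n := fun h => hne (by rw [h])
    exact disjoint_left.mp (hd' _ _ hne') hex.choose_spec.2 hx
  have hf0 : ∀ x, (∀ n ∈ N, x ∉ V n) → f x = 0 := by
    intro x hx
    have : ¬ ∃ n ∈ N, x ∈ V n := by push Not; exact hx
    simp only [f, dif_neg this]
  refine ⟨f, ?_, ?_⟩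
  · rw [← IsLocallyConstant.iff_continuous]
    rw [IsLocallyConstant.iff_eventually_eq]
    intro x
    by_cases hx : ∃ n ∈ N, x ∈ V n
    · obtain ⟨n, hn, hxn⟩ := hx
      filter_upwards [(hV n).isOpen.mem_nhds hxn] with y hy
      rw [hf1 n hn y hy, hf1 n hn x hxn]
    · push Not at hx
      obtain ⟨O, hO, hfin⟩ := hcon x
      have h1 : (⋂ n ∈ {n ∈ N | (V n ∩ O).Nonempty}, (V n)ᶜ) ∈ 𝓝 x := by
        rw [Filter.biInter_mem hfin]
        intro n hn
        exact (hV n).compl.isOpen.mem_nhds (hx n hn.1)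
      filter_upwards [hO, h1] with y hy1 hy2
      rw [hf0 x hx, hf0 y]
      intro n hn hyn
      rw [mem_iInter₂] at hy2
      exact hy2 n ⟨hn, y, hyn, hy1⟩ hyn
  · intro n
    obtain ⟨m, hm, hnm⟩ := hN.exists_gt n
    obtain ⟨x, hx⟩ := hne m
    exact ⟨x, by rw [hf1 m hm x hx]; omega⟩

lemma good_pts {C : Set X} (hC : IsCompact C) {u : ℕ → X} (hu : ∀ n, u n ∈ C) :
    Good fun n => {u n} := by
  intro N hN
  have hne : (cofinite ⊓ 𝓟 N).NeBot := by
    rw [Filter.inf_principal_neBot_iff]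
    intro U hU
    rw [mem_cofinite] at hU
    obtain ⟨n, hn, hnU⟩ := (hN.sdiff hU).nonempty
    exact ⟨n, by simpa using hnU, hn⟩
  have hle : map u (cofinite ⊓ 𝓟 N) ≤ 𝓟 C := by
    rw [le_principal_iff, mem_map]
    exact Filter.univ_mem' hu
  obtain ⟨v, -, hv⟩ := hC.exists_clusterPt hle
  refine ⟨v, fun O hO => ?_⟩
  intro hfin
  have h1 : ({n ∈ N | (({u n} : Set X) ∩ O).Nonempty}ᶜ ∩ N) ∈ cofinite ⊓ 𝓟 N :=
    Filter.inter_mem (Filter.mem_inf_of_left (by rw [mem_cofinite, compl_compl]; exact hfin))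
      (Filter.mem_inf_of_right (mem_principal_self N))
  have h2 : u '' ({n ∈ N | (({u n} : Set X) ∩ O).Nonempty}ᶜ ∩ N) ∈ map u (cofinite ⊓ 𝓟 N) :=
    Filter.image_mem_map h1
  obtain ⟨y, hy1, n, hn, rfl⟩ := (clusterPt_iff_nonempty.mp hv) hO h2
  exact hn.1 ⟨hn.2, u n, rfl, hy1⟩

variable [T2Space X] [LocallyCompactSpace X]

/-- the two sequences lemma -/
lemma two_seq (r : CWS X) {V W : ℕ → Set X} {D : Set X} (hD : IsClopen D)
    (hWD : ∀ n, W n ⊆ D) (hVD : ∀ n, V n ⊆ Dᶜ) (hV : Good V) (hW : Good W)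
    (hgt : ∀ m n, n < m → ∀ x ∈ W m, ∀ y ∈ V n, r.lt x y)
    (heq : ∀ n, ∀ x ∈ W n, ∀ y ∈ V n, r.lt y x) : False := by
  classical
  obtain ⟨v, hv⟩ := hV univ infinite_univ
  obtain ⟨O, hO, hOv⟩ := exists_compact_mem_nhds v
  let N : Set ℕ := {n | (V n ∩ O).Nonempty}
  have hN : N.Infinite := by
    have := hv O hOv
    simpa [N] using this
  obtain ⟨w, hw⟩ := hW N hN
  have hex : ∀ n, ∃ y : X, n ∈ N → y ∈ V n ∩ O := by
    intro n
    by_cases hn : n ∈ N
    · exact ⟨hn.some, fun _ => hn.some_mem⟩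
    · exact ⟨v, fun h => absurd h hn⟩
  choose y hy using hex
  let Hs : Set (ℕ × X) := {q | q.1 ∈ N ∧ q.2 ∈ W q.1}
  have hne : ((cofinite ×ˢ 𝓝 w) ⊓ 𝓟 Hs).NeBot := by
    rw [Filter.inf_principal_neBot_iff]
    intro S hS
    obtain ⟨t1, ht1, t2, ht2, hS'⟩ := Filter.mem_prod_iff.mp hS
    rw [mem_cofinite] at ht1
    obtain ⟨n, ⟨hnN, x, hx1, hx2⟩, hn⟩ := ((hw t2 ht2).sdiff ht1).nonempty
    exact ⟨(n, x), hS' ⟨by simpa using hn, hx2⟩, hnN, hx1⟩
  let F : Ultrafilter (ℕ × X) := Ultrafilter.of ((cofinite ×ˢ 𝓝 w) ⊓ 𝓟 Hs)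
  have hFle : (F : Filter (ℕ × X)) ≤ (cofinite ×ˢ 𝓝 w) ⊓ 𝓟 Hs := Ultrafilter.of_le _
  have hH : ∀ᶠ q in (F : Filter (ℕ × X)), q ∈ Hs := by
    have := hFle.trans inf_le_right
    rwa [le_principal_iff] at this
  have h1 : Tendsto (fun q : ℕ × X => q.1) F cofinite :=
    (tendsto_fst (f := cofinite) (g := 𝓝 w)).mono_left (hFle.trans inf_le_left)
  have h2 : Tendsto (fun q : ℕ × X => q.2) F (𝓝 w) :=
    (tendsto_snd (f := cofinite) (g := 𝓝 w)).mono_left (hFle.trans inf_le_left)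
  have hle : ((F.map fun q => y q.1 : Ultrafilter X) : Filter X) ≤ 𝓟 O := by
    rw [le_principal_iff]
    show (fun q : ℕ × X => y q.1) ⁻¹' O ∈ (F : Filter (ℕ × X))
    filter_upwards [hH] with q hq
    exact (hy q.1 hq.1).2
  obtain ⟨w', -, hw'⟩ := hO.ultrafilter_le_nhds _ hle
  have h3 : Tendsto (fun q : ℕ × X => y q.1) F (𝓝 w') := hw'
  have hwD : w ∈ D := hD.isClosed.mem_of_tendsto h2 (by
    filter_upwards [hH] with q hq
    exact hWD _ hq.2)
  have hwD' : w' ∈ Dᶜ := hD.compl.isClosed.mem_of_tendsto h3 (by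
    filter_upwards [hH] with q hq
    exact hVD _ (hy q.1 hq.1).1)
  have hww : w ≠ w' := by
    rintro rfl
    exact hwD' hwD
  rcases r.total w w' hww with h | h
  · have h4 : {p : X × X | r.lt p.1 p.2} ∈ 𝓝 (w, w') := r.op.mem_nhds h
    have h5 : ∀ᶠ q in (F : Filter (ℕ × X)), r.lt q.2 (y q.1) := (h2.prodMk_nhds h3) h4
    obtain ⟨q, hq1, hq2⟩ := (h5.and hH).exists
    exact r.asymm _ _ hq1 (heq _ _ hq2.2 _ (hy _ hq2.1).1)
  · have h4 : {p : X × X | r.lt p.1 p.2} ∈ 𝓝 (w', w) := r.op.mem_nhds h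
    rw [mem_nhds_prod_iff] at h4
    obtain ⟨O2, hO2, O1, hO1, hsub⟩ := h4
    obtain ⟨q0, hq0, hq0H⟩ := ((h3.eventually hO2).and hH).exists
    have h6 : ∀ᶠ q in (F : Filter (ℕ × X)), q0.1 < q.1 := by
      apply h1.eventually
      rw [Filter.Eventually, mem_cofinite]
      apply (Set.finite_Iic q0.1).subset
      intro n hn
      simpa using hn
    obtain ⟨q, ⟨hq1, hq2⟩, hq3⟩ := (((h2.eventually hO1).and h6).and hH).exists
    have h7 : r.lt (y q0.1) q.2 := hsub (⟨hq0, hq1⟩ : (y q0.1, q.2) ∈ O2 ×ˢ O1)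
    exact r.asymm _ _ h7 (hgt q.1 q0.1 hq2 _ hq3.2 _ (hy _ hq0H.1).1)

/-- clopen compact neighbourhoods of compact quasi-components -/
lemma clopen_nhd {x : X} (hK : IsCompact (Kq x)) {O : Set X} (hO : IsOpen O) (hKO : Kq x ⊆ O) :
    ∃ V : Set X, IsClopen V ∧ IsCompact V ∧ Kq x ⊆ V ∧ V ⊆ O := by
  obtain ⟨W, hW, hKW, hWO, hWc⟩ := exists_open_between_and_isCompact_closure hK hO hKO
  have hE : IsCompact (frontier W) :=
    hWc.of_isClosed_subset isClosed_frontier frontier_subset_closure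
  have hd : Disjoint (frontier W) (Kq x) := by
    rw [disjoint_left]
    intro e he heK
    rw [hW.frontier_eq] at he
    exact he.2 (hKW heK)
  obtain ⟨C, hC, hxC, hdC⟩ := sep_compact hE hd
  have he : C ∩ W = C ∩ closure W := by
    ext e
    constructor
    · rintro ⟨h1, h2⟩; exact ⟨h1, subset_closure h2⟩
    · rintro ⟨h1, h2⟩
      refine ⟨h1, ?_⟩
      by_contra h3
      exact disjoint_left.mp hdC (by rw [hW.frontier_eq]; exact ⟨h2, h3⟩) h1
  refine ⟨C ∩ W, ⟨?_, hC.isOpen.inter hW⟩, ?_, ?_, ?_⟩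
  · rw [he]; exact hC.isClosed.inter isClosed_closure
  · rw [he]; exact hWc.inter_left hC.isClosed
  · exact subset_inter (fun y hy => hy C hC hxC) hKW
  · exact inter_subset_right.trans (subset_closure.trans hWO)

section three
variable (hK : ∀ x : X, IsCompact (Kq x)) (hn : NICP X) {F : Ultrafilter X}
  (hF : (F : Filter X) ≤ cocompact X)
include hK hn hF

/-- state for the first construction -/
structure St (F : Ultrafilter X) (a : X) (C D0 : Set X) where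
  /-- neighbourhood of `a` -/
  U : Set X
  /-- clopen member of `F` -/
  D : Set X
  hU : U ∈ 𝓝 a
  hUC : U ⊆ C
  hD : IsClopen D
  hDF : D ∈ F
  hDD : D ⊆ D0

lemma ab (r : CWS X) {a : X} (ha : r.V a ∈ F) :
    ∃ U ∈ 𝓝 a, ∃ D, IsClopen D ∧ D ∈ F ∧ ∀ u ∈ U, ∀ d ∈ D, r.lt u d := by
  by_contra hcon
  push Not at hcon
  obtain ⟨C, hCcl, hCc, hKC, -⟩ := clopen_nhd (hK a) isOpen_univ (subset_univ _)
  have haC : a ∈ C := hKC (self_mem_Kq a)
  let D0 : Set X := Cᶜ ∩ r.V a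
  have hD0 : IsClopen D0 := r.clopen_V hCcl.compl (by simpa using haC)
  have hD0F : D0 ∈ F := Filter.inter_mem (hF hCc.compl_mem_cocompact) ha
  have step : ∀ s : St F a C D0, ∃ (u : X) (V : Set X) (s' : St F a C D0),
      u ∈ s.U ∧ V ⊆ s.D ∧ IsClopen V ∧ V.Nonempty ∧ (∀ v ∈ V, r.lt v u) ∧ s'.U ⊆ s.U ∧
      s'.D ⊆ s.D ∧ (∀ u' ∈ s'.U, ∀ v ∈ V, r.lt u' v) ∧ Disjoint V s'.D := by
    intro s
    obtain ⟨u, hu, d, hd, hud⟩ := hcon s.U s.hU s.D s.hD s.hDF
    have huD : u ∉ s.D := fun h => (s.hDD h).1 (s.hUC hu)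
    have hne : u ≠ d := fun h => huD (h ▸ hd)
    have hdu : r.lt d u := (r.total u d hne).resolve_left hud
    have huK : u ∉ Kq d := fun h => huD (h _ s.hD hd)
    have hKD : Kq d ⊆ s.D := fun y hy => hy _ s.hD hd
    have hKa : ({a} : Set X) ×ˢ Kq d ⊆ {p : X × X | r.lt p.1 p.2} := by
      rintro ⟨a', d'⟩ ⟨ha', hd'⟩
      rw [mem_singleton_iff] at ha'
      simp only at ha' hd'
      subst ha'
      exact (s.hDD (hKD hd')).2
    obtain ⟨U1, O1, hU1, hO1, haU1, hKO1, hsub⟩ :=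
      generalized_tube_lemma isCompact_singleton (hK d) r.op hKa
    obtain ⟨V, hV, hVc, hKV, hVO⟩ := clopen_nhd (hK d)
      ((hO1.inter (r.isOpen_U u)).inter s.hD.isOpen)
      (subset_inter (subset_inter hKO1 fun d' hd' => r.relK' huK hdu hd') hKD)
    refine ⟨u, V, ⟨s.U ∩ U1, s.D ∩ Vᶜ, Filter.inter_mem s.hU
      (hU1.mem_nhds (haU1 rfl)), inter_subset_left.trans s.hUC, s.hD.inter hV.compl,
      Filter.inter_mem s.hDF (hF hVc.compl_mem_cocompact), inter_subset_left.trans s.hDD⟩,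
      hu, fun v hv => (hVO hv).2, hV, ⟨d, hKV (self_mem_Kq d)⟩, fun v hv => (hVO hv).1.2,
      inter_subset_left, inter_subset_left, ?_, ?_⟩
    · intro u' hu' v hv
      exact hsub (⟨hu'.2, (hVO hv).1.1⟩ : (u', v) ∈ U1 ×ˢ O1)
    · rw [disjoint_left]
      intro v hv hv'
      exact hv'.2 hv
  choose uf Vf sf h1 h2 h3 h4 h5 h6 h7 h8 h9 using step
  let s0 : St F a C D0 := ⟨C, D0, hCcl.isOpen.mem_nhds haC, Subset.rfl, hD0, hD0F, Subset.rfl⟩
  let st : ℕ → St F a C D0 := fun n => Nat.rec s0 (fun _ s => sf s) n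
  have hst : ∀ n, st (n + 1) = sf (st n) := fun n => rfl
  have hUm : ∀ m n, n ≤ m → (st m).U ⊆ (st n).U := by
    intro m n hnm
    induction m, hnm using Nat.le_induction with
    | base => exact Subset.rfl
    | succ m _ ih => rw [hst]; exact (h6 _).trans ih
  have hDm : ∀ m n, n ≤ m → (st m).D ⊆ (st n).D := by
    intro m n hnm
    induction m, hnm using Nat.le_induction with
    | base => exact Subset.rfl
    | succ m _ ih => rw [hst]; exact (h7 _).trans ih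
  refine two_seq r (V := fun n => Vf (st n)) (W := fun n => {uf (st n)}) (D := C) hCcl ?_ ?_ ?_ ?_
    ?_ ?_
  · rintro n _ rfl
    exact (st n).hUC (h1 _)
  · intro n v hv
    exact ((st n).hDD (h2 _ hv)).1
  · apply good_of_nicp hn (fun n => h3 _) (fun n => h4 _)
    intro m n hmn
    apply (h9 (st m)).mono_right
    rw [← hst]
    exact (h2 _).trans (hDm _ _ hmn)
  · exact good_pts hCc fun n => (st n).hUC (h1 _)
  · rintro m n hnm _ rfl y hy
    apply h8 (st n) _ _ y hy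
    rw [← hst]
    exact hUm _ _ hnm (h1 (st m))
  · rintro n _ rfl y hy
    exact h5 _ y hy

lemma isOpen_A (r : CWS X) : IsOpen {a | r.V a ∈ F} := by
  rw [isOpen_iff_mem_nhds]
  intro a ha
  obtain ⟨U, hU, D, -, hDF, hUD⟩ := ab hK hn hF r ha
  filter_upwards [hU] with u hu
  exact Filter.mem_of_superset hDF fun d hd => hUD u hu d hd

lemma isClopen_A (r : CWS X) : IsClopen {a | r.V a ∈ F} := by
  refine ⟨?_, isOpen_A hK hn hF r⟩
  rw [← isOpen_compl_iff]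
  have : {a | r.V a ∈ F}ᶜ = {a | r.rev.V a ∈ F} := by
    ext a
    simp only [mem_compl_iff, mem_ofPred_eq]
    constructor
    · intro h
      exact (UV r hF a).resolve_left h
    · intro h1 h2
      obtain ⟨y, hy1, hy2⟩ := F.nonempty_of_mem (Filter.inter_mem h1 h2)
      exact r.asymm _ _ hy1 hy2
  rw [this]
  exact isOpen_A hK hn hF r.rev

lemma stepc (r : CWS X) (hA : {a | r.V a ∈ F} ∈ F) {z : X} (hz : r.V z ∈ F) :
    ∃ x, r.V x ∈ F ∧ ∀ y, r.V y ∈ F → (y = z ∨ r.lt y z) → r.lt y x := by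
  by_contra hcon
  push Not at hcon
  have hAc := isClopen_A hK hn hF r
  obtain ⟨C, hCcl, hCc, hKC, -⟩ := clopen_nhd (hK z) isOpen_univ (subset_univ _)
  have hzC : z ∈ C := hKC (self_mem_Kq z)
  let Dz : Set X := (Cᶜ ∩ r.V z) ∩ {a | r.V a ∈ F}
  have hDz : IsClopen Dz := (r.clopen_V hCcl.compl (by simpa using hzC)).inter hAc
  have hDzF : Dz ∈ F := Filter.inter_mem
    (Filter.inter_mem (hF hCc.compl_mem_cocompact) hz) hA
  have step : ∀ s : {D : Set X // IsClopen D ∧ D ∈ F ∧ D ⊆ Dz}, ∃ (W V : Set X)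
      (s' : {D : Set X // IsClopen D ∧ D ∈ F ∧ D ⊆ Dz}),
      W ⊆ s.1 ∧ IsClopen W ∧ W.Nonempty ∧ IsClopen V ∧ V.Nonempty ∧ V ⊆ Dzᶜ ∧
      (∀ w ∈ W, ∀ v ∈ V, r.lt w v) ∧ (∀ v ∈ V, ∀ d ∈ s'.1, r.lt v d) ∧ Disjoint W s'.1 ∧
      s'.1 ⊆ s.1 := by
    rintro ⟨D, hD, hDF, hDD⟩
    obtain ⟨x, hx⟩ := F.nonempty_of_mem hDF
    obtain ⟨y, hyA, hyz, hyx⟩ := hcon x (hDD hx).2
    have hyDz : y ∉ Dz := by
      intro h
      have hzy : r.lt z y := h.1.2
      rcases hyz with rfl | hyz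
      · exact r.irrefl _ hzy
      · exact r.asymm _ _ hzy hyz
    have hne : y ≠ x := fun h => hyDz (h ▸ hDD hx)
    have hxy : r.lt x y := (r.total y x hne).resolve_left hyx
    have hKDz : Kq y ⊆ Dzᶜ := fun y' hy' => hy' _ hDz.compl hyDz
    have hKA : Kq y ⊆ {a | r.V a ∈ F} := fun y' hy' => hy' _ hAc hyA
    have hxK : x ∉ Kq y := fun h => hKDz h (hDD hx)
    -- the tube
    obtain ⟨O, hO, hKO, D', hD', hD'F, hOD'⟩ : ∃ O : Set X, IsOpen O ∧ Kq y ⊆ O ∧
        ∃ D', IsClopen D' ∧ D' ∈ F ∧ ∀ o ∈ O, ∀ d ∈ D', r.lt o d := by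
      refine (hK y).induction_on (p := fun s => ∃ O : Set X, IsOpen O ∧ s ⊆ O ∧
        ∃ D', IsClopen D' ∧ D' ∈ F ∧ ∀ o ∈ O, ∀ d ∈ D', r.lt o d) ?_ ?_ ?_ ?_
      · exact ⟨∅, isOpen_empty, Subset.rfl, univ, isClopen_univ, Filter.univ_mem, by simp⟩
      · rintro s t hst ⟨O, h1, h2, h3⟩
        exact ⟨O, h1, hst.trans h2, h3⟩
      · rintro s t ⟨O, h1, h2, D1, h3, h4, h5⟩ ⟨O', h1', h2', D1', h3', h4', h5'⟩
        refine ⟨O ∪ O', h1.union h1', union_subset_union h2 h2', D1 ∩ D1', h3.inter h3',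
          Filter.inter_mem h4 h4', ?_⟩
        rintro o (ho | ho) d hd
        · exact h5 o ho d hd.1
        · exact h5' o ho d hd.2
      · intro y' hy'
        obtain ⟨U, hU, D1, h1, h2, h3⟩ := ab hK hn hF r (hKA hy')
        obtain ⟨O, hOU, hO, hyO⟩ := mem_nhds_iff.mp hU
        exact ⟨O, mem_nhdsWithin_of_mem_nhds (hO.mem_nhds hyO), O, hO, Subset.rfl, D1, h1, h2,
          fun o ho d hd => h3 o (hOU ho) d hd⟩
    obtain ⟨V, hV, hVc, hKV, hVO⟩ := clopen_nhd (hK y)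
      ((hO.inter (r.isOpen_V x)).inter hDz.compl.isOpen)
      (subset_inter (subset_inter hKO fun y' hy' => r.relK hxK hxy hy') hKDz)
    have hprod : Kq x ×ˢ V ⊆ {p : X × X | r.lt p.1 p.2} := by
      rintro ⟨x', v⟩ ⟨hx', hv⟩
      simp only at hx' hv
      have hvK : v ∉ Kq x := fun h => (hVO hv).2 (h _ hDz (hDD hx))
      exact r.relK' hvK (hVO hv).1.2 hx'
    obtain ⟨O', O'', hO', hO'', hKO', hVO'', hsub⟩ :=
      generalized_tube_lemma (hK x) hVc r.op hprod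
    have hKD : Kq x ⊆ D := fun x' hx' => hx' _ hD hx
    obtain ⟨W, hW, hWc, hKW, hWO⟩ := clopen_nhd (hK x) (hO'.inter hD.isOpen)
      (subset_inter hKO' hKD)
    refine ⟨W, V, ⟨(D ∩ D') ∩ Wᶜ, (hD.inter hD').inter hW.compl,
      Filter.inter_mem (Filter.inter_mem hDF hD'F) (hF hWc.compl_mem_cocompact),
      fun d hd => hDD hd.1.1⟩, fun w hw => (hWO hw).2, hW, ⟨x, hKW (self_mem_Kq x)⟩, hV,
      ⟨y, hKV (self_mem_Kq y)⟩, fun v hv => (hVO hv).2, ?_, ?_, ?_, fun d hd => hd.1.1⟩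
    · intro w hw v hv
      exact hsub (⟨(hWO hw).1, hVO'' hv⟩ : (w, v) ∈ O' ×ˢ O'')
    · intro v hv d hd
      exact hOD' v (hVO hv).1.1 d hd.1.2
    · rw [disjoint_left]
      intro w hw hw'
      exact hw'.2 hw
  choose Wf Vf sf h1 h2 h3 h4 h5 h6 h7 h8 h9 h10 using step
  let s0 : {D : Set X // IsClopen D ∧ D ∈ F ∧ D ⊆ Dz} := ⟨Dz, hDz, hDzF, Subset.rfl⟩
  let st : ℕ → {D : Set X // IsClopen D ∧ D ∈ F ∧ D ⊆ Dz} :=
    fun n => Nat.rec s0 (fun _ s => sf s) n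
  have hst : ∀ n, st (n + 1) = sf (st n) := fun n => rfl
  have hDm : ∀ m n, n ≤ m → (st m).1 ⊆ (st n).1 := by
    intro m n hnm
    induction m, hnm using Nat.le_induction with
    | base => exact Subset.rfl
    | succ m _ ih => rw [hst]; exact (h10 _).trans ih
  have hWs : ∀ m n, n < m → Wf (st m) ⊆ (sf (st n)).1 := by
    intro m n hnm
    rw [← hst]
    exact (h1 _).trans (hDm _ _ hnm)
  refine two_seq r.rev (V := fun n => Vf (st n)) (W := fun n => Wf (st n)) (D := Dz) hDz ?_ ?_ ?_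
    ?_ ?_ ?_
  · intro n w hw
    exact (st n).2.2.2 (h1 _ hw)
  · intro n
    exact h6 _
  · apply good_of_nicp hn (fun n => h4 _) (fun n => h5 _)
    intro m n hmn
    rw [disjoint_left]
    intro v hvm hvn
    obtain ⟨w, hw⟩ := h3 (st n)
    exact r.asymm _ _ (h7 (st n) w hw v hvn) (h8 (st m) v hvm w (hWs _ _ hmn hw))
  · apply good_of_nicp hn (fun n => h2 _) (fun n => h3 _)
    intro m n hmn
    exact (h9 (st m)).mono_right (hWs _ _ hmn)
  · intro m n hnm x hx y hy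
    exact h8 (st n) y hy x (hWs _ _ hnm hx)
  · intro n x hx y hy
    exact h7 (st n) x hx y hy

lemma case3_aux (r : CWS X) (hA : {a | r.V a ∈ F} ∈ F) : ∃ r' : CWS X, Kingless r' := by
  have hAc := isClopen_A hK hn hF r
  refine ⟨r.below {a | r.V a ∈ F}ᶜ hAc.compl, ?_⟩
  intro z
  by_cases hz : r.V z ∈ F
  · obtain ⟨x, hx, hxy⟩ := stepc hK hn hF r hA hz
    refine ⟨x, ?_⟩
    intro y hy
    by_cases hyA : r.V y ∈ F
    · right
      refine ⟨by simp [hx, hyA], hxy y hyA ?_⟩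
      rcases hy with rfl | h
      · exact Or.inl rfl
      · rcases h with h | h
        · exact absurd hyA h.1
        · exact Or.inr h.2
    · left
      exact ⟨hyA, by simpa using hx⟩
  · obtain ⟨x, hx⟩ := F.nonempty_of_mem hA
    refine ⟨x, ?_⟩
    rintro y (rfl | h)
    · exact Or.inl ⟨hz, by simpa using hx⟩
    · rcases h with h | h
      · exact absurd hz h.2
      · exact Or.inl ⟨h.1.mpr hz, by simpa using hx⟩

lemma case3 (r : CWS X) : ∃ r' : CWS X, Kingless r' := by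
  by_cases hA : {a | r.V a ∈ F} ∈ F
  · exact case3_aux hK hn hF r hA
  · have h1 : {a | r.V a ∈ F}ᶜ ∈ F := Ultrafilter.compl_mem_iff_notMem.mpr hA
    have h2 : {a | r.rev.V a ∈ F} ∈ F := by
      filter_upwards [h1] with a ha
      exact (UV r hF a).resolve_left ha
    exact case3_aux hK hn hF r.rev h2

end three

/-- **Main theorem** -/
theorem main (r : CWS X) (hX : ¬ CompactSpace X) : ∃ r' : CWS X, Kingless r' := by
  by_cases h1 : ∃ f : X → ℕ, Continuous f ∧ ∀ n, ∃ x, n < f x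
  · obtain ⟨f, hf, hunb⟩ := h1
    exact case1 r hf hunb
  · by_cases hK : ∀ x : X, IsCompact (Kq x)
    · have hne : (cocompact X).NeBot := by
        rw [Filter.cocompact_neBot_iff]
        exact not_compactSpace_iff.mp hX
      exact case3 hK h1 (F := Ultrafilter.of (cocompact X)) (Ultrafilter.of_le _) r
    · push Not at hK
      obtain ⟨t, ht⟩ := hK
      rcases noMax_or_noMin r ht with h | h
      · exact case2 r h
      · exact case2 r.rev h

end Pool.Agent.Q151.King
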