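import Pool.Agent.Q151.King.Basic

/-!
# A noncompact quasi-component gives a kingless continuous weak selection
-/

set_option autoImplicit false

open Set Filter Topology

namespace Pool.Agent.Q151.King

variable {X : Type*} [TopologicalSpace X]

lemma CWS.clopen_UV (r : CWS X) {x y : X} (h : r.lt y x) : IsClopen (r.U y ∩ r.V x) := by
  refine ⟨?_, (r.isOpen_U y).inter (r.isOpen_V x)⟩
  have : r.U y ∩ r.V x = (r.V y)ᶜ ∩ (r.U x)ᶜ := by
    rw [r.compl_U, r.compl_V]
    ext z
    simp only [mem_inter_iff, mem_union, mem_singleton_iff]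
    constructor
    · rintro ⟨h1, h2⟩; exact ⟨Or.inl h1, Or.inl h2⟩
    · rintro ⟨h1 | rfl, h2 | rfl⟩
      · exact ⟨h1, h2⟩
      · exact absurd h (r.asymm _ _ h1)
      · exact absurd h (r.asymm _ _ h2)
      · exact absurd h (r.irrefl _)
  rw [this]
  exact (r.isOpen_V y).isClosed_compl.inter (r.isOpen_U x).isClosed_compl

/-- transitivity on a quasi-component -/
lemma CWS.transK (r : CWS X) {t x y z : X} (hy : y ∈ Kq t) (hz : z ∈ Kq t)
    (hzy : r.lt z y) (hyx : r.lt y x) : r.lt z x := by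
  have h1 : z ∉ r.V x := by
    intro h
    have := Kq_sub hz (r.clopen_UV hyx) ⟨hzy, h⟩ hy
    exact r.irrefl _ this.1
  by_cases hzx : z = x
  · subst hzx
    exact absurd hzy (r.asymm _ _ hyx)
  · exact (r.total z x hzx).resolve_right h1

variable [T2Space X]

/-- crossing the boundary -/
lemma CWS.cross (r : CWS X) {t k : X} {W : Set X} (hW : IsOpen W)
    (hWc : IsCompact (closure W)) (htW : t ∈ W) (hkW : k ∉ W) (hk : k ∈ Kq t)
    (htk : r.lt t k) : ∃ e ∈ Kq t, e ∈ frontier W ∧ ¬ r.lt e t ∧ ¬ r.lt k e := by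
  by_contra hcon
  push Not at hcon
  have hE : IsCompact (frontier W ∩ ((r.U t)ᶜ ∩ (r.V k)ᶜ)) := by
    apply (hWc.of_isClosed_subset isClosed_frontier frontier_subset_closure).inter_right
    exact (r.isOpen_U t).isClosed_compl.inter (r.isOpen_V k).isClosed_compl
  have hd : Disjoint (frontier W ∩ ((r.U t)ᶜ ∩ (r.V k)ᶜ)) (Kq t) := by
    rw [disjoint_left]
    rintro e ⟨he1, he2, he3⟩ heK
    exact he3 (hcon e heK he1 he2)
  obtain ⟨C, hC, htC, hdC⟩ := sep_compact hE hd
  have hZ : IsClopen (C ∩ (r.U t ∪ (W ∩ r.U k))) := by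
    refine ⟨?_, hC.isOpen.inter ((r.isOpen_U t).union (hW.inter (r.isOpen_U k)))⟩
    have : C ∩ (r.U t ∪ (W ∩ r.U k)) = C ∩ ((r.V t)ᶜ ∪ (closure W ∩ (r.V k)ᶜ)) := by
      rw [r.compl_V, r.compl_V]
      ext e
      simp only [mem_inter_iff, mem_union, mem_singleton_iff]
      constructor
      · rintro ⟨h1, h2 | ⟨h2, h3⟩⟩
        · exact ⟨h1, Or.inl (Or.inl h2)⟩
        · exact ⟨h1, Or.inr ⟨subset_closure h2, Or.inl h3⟩⟩
      · rintro ⟨h1, (h2 | rfl) | ⟨h2, h3⟩⟩
        · exact ⟨h1, Or.inl h2⟩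
        · exact ⟨h1, Or.inr ⟨htW, htk⟩⟩
        · refine ⟨h1, ?_⟩
          by_cases heW : e ∈ W
          · rcases h3 with h3 | rfl
            · exact Or.inr ⟨heW, h3⟩
            · exact absurd heW hkW
          · by_cases heU : e ∈ r.U t
            · exact Or.inl heU
            · exfalso
              have hfr : e ∈ frontier W := by
                rw [hW.frontier_eq]; exact ⟨h2, heW⟩
              refine disjoint_left.mp hdC ⟨hfr, heU, ?_⟩ h1
              rw [r.compl_V]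
              exact h3
    rw [this]
    exact hC.isClosed.inter ((r.isOpen_V t).isClosed_compl.union
      (isClosed_closure.inter (r.isOpen_V k).isClosed_compl))
  have := hk _ hZ ⟨htC, Or.inr ⟨htW, htk⟩⟩
  rcases this.2 with h | h
  · exact r.asymm _ _ htk h
  · exact r.irrefl _ h.2

lemma UV (r : CWS X) {F : Ultrafilter X} (hF : (F : Filter X) ≤ cocompact X) (x : X) :
    r.V x ∈ F ∨ r.U x ∈ F := by
  have h1 : ({x}ᶜ : Set X) ∈ F := hF (isCompact_singleton.compl_mem_cocompact)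
  have h2 : ({x}ᶜ : Set X) = r.V x ∪ r.U x := by
    ext y
    simp only [mem_compl_iff, mem_singleton_iff, mem_union]
    constructor
    · intro h
      rcases r.total y x h with h | h
      · exact Or.inr h
      · exact Or.inl h
    · rintro (h | h) rfl
      · exact r.irrefl _ h
      · exact r.irrefl _ h
  rw [h2] at h1
  exact Ultrafilter.union_mem_iff.mp h1

lemma not_compact_mem {F : Ultrafilter X} (hF : (F : Filter X) ≤ cocompact X) {C : Set X}
    (hC : IsCompact C) : C ∉ F := by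
  intro h
  have h1 : Cᶜ ∈ F := hF hC.compl_mem_cocompact
  have := Filter.inter_mem h h1
  rw [inter_compl_self] at this
  exact F.empty_notMem this

variable [LocallyCompactSpace X]

lemma noMaxS (r : CWS X) {F : Ultrafilter X} (hF : (F : Filter X) ≤ cocompact X) {t : X}
    (hK : Kq t ∈ F) (ht : r.V t ∈ F) : ∃ t' ∈ Kq t, r.lt t t' ∧ r.V t' ∈ F := by
  by_contra hcon
  push Not at hcon
  have hU : ∀ k ∈ Kq t, r.lt t k → r.U k ∈ F := fun k hk htk =>
    (UV r hF k).resolve_left (hcon k hk htk)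
  obtain ⟨W, hW, htW, -, hWc⟩ := exists_open_between_and_isCompact_closure
    (isCompact_singleton (x := t)) isOpen_univ (subset_univ _)
  rw [singleton_subset_iff] at htW
  let I := {k : X // k ∈ Kq t ∧ r.lt t k}
  have hne0 : (Kq t ∩ r.V t).Nonempty := F.nonempty_of_mem (Filter.inter_mem hK ht)
  haveI : Nonempty I := ⟨⟨hne0.some, hne0.some_mem.1, hne0.some_mem.2⟩⟩
  let E : I → Set X := fun k => frontier W ∩ Kq t ∩ ((r.U t)ᶜ ∩ (r.V k.1)ᶜ)
  have hEcl : ∀ k, IsClosed (E k) := fun k =>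
    (isClosed_frontier.inter (isClosed_Kq t)).inter
      ((r.isOpen_U t).isClosed_compl.inter (r.isOpen_V k.1).isClosed_compl)
  have hEc : ∀ k, IsCompact (E k) := fun k =>
    hWc.of_isClosed_subset (hEcl k) fun e he => frontier_subset_closure he.1.1
  -- monotonicity
  have hmono : ∀ k k' : I, r.lt k.1 k'.1 → E k ⊆ E k' := by
    rintro k k' hkk e ⟨⟨h1, h2⟩, h3, h4⟩
    refine ⟨⟨h1, h2⟩, h3, ?_⟩
    rw [r.compl_V] at h4 ⊢
    left
    rcases h4 with h4 | h4
    · exact r.transK k.2.1 h2 h4 hkk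
    · rw [mem_singleton_iff] at h4
      rw [h4]; exact hkk
  have hdir : Directed (· ⊇ ·) E := by
    intro k k'
    by_cases hkk : k.1 = k'.1
    · exact ⟨k, Subset.rfl, by rw [Subtype.ext hkk]⟩
    · rcases r.total _ _ hkk with h | h
      · exact ⟨k, Subset.rfl, hmono _ _ h⟩
      · exact ⟨k', hmono _ _ h, Subset.rfl⟩
  have hEne : ∀ k, (E k).Nonempty := by
    intro k
    by_contra hemp
    rw [not_nonempty_iff_eq_empty] at hemp
    have hsub : Kq t ∩ (r.V t ∩ r.U k.1) ⊆ closure W := by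
      rintro k' ⟨hk', htk', hkk'⟩
      apply subset_closure
      by_contra hk'W
      obtain ⟨e, heK, hef, h1, h2⟩ := r.cross hW hWc htW hk'W hk' htk'
      have : e ∈ E ⟨k', hk', htk'⟩ := ⟨⟨hef, heK⟩, h1, h2⟩
      have := hmono ⟨k', hk', htk'⟩ k hkk' this
      rw [hemp] at this
      exact this
    exact not_compact_mem hF hWc (Filter.mem_of_superset
      (Filter.inter_mem hK (Filter.inter_mem ht (hU _ k.2.1 k.2.2))) hsub)
  obtain ⟨e, he⟩ := IsCompact.nonempty_iInter_of_directed_nonempty_isCompact_isClosed E hdir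
    hEne hEc hEcl
  rw [mem_iInter] at he
  have he0 := he (Classical.arbitrary I)
  have heK : e ∈ Kq t := he0.1.2
  have hte : r.lt t e := by
    rcases r.not_mem_U.mp he0.2.1 with h | h
    · exact h
    · exfalso
      have h1 := he0.1.1
      rw [hW.frontier_eq, h] at h1
      exact h1.2 htW
  have hne : (Kq t ∩ (r.V t ∩ r.U e)).Nonempty :=
    F.nonempty_of_mem (Filter.inter_mem hK (Filter.inter_mem ht (hU _ heK hte)))
  obtain ⟨k, hk, htk, hke⟩ := hne
  exact (he ⟨k, hk, htk⟩).2.2 hke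

/-- a noncompact quasi-component has no maximum or no minimum -/
lemma noMax_or_noMin (r : CWS X) {t : X} (hnc : ¬ IsCompact (Kq t)) :
    (∀ k ∈ Kq t, ∃ k' ∈ Kq t, r.lt k k') ∨ (∀ k ∈ Kq t, ∃ k' ∈ Kq t, r.lt k' k) := by
  have hne : (cocompact X ⊓ 𝓟 (Kq t)).NeBot := by
    rw [Filter.inf_principal_neBot_iff]
    intro U hU
    rw [Filter.mem_cocompact] at hU
    obtain ⟨C, hC, hCU⟩ := hU
    by_contra hemp
    rw [not_nonempty_iff_eq_empty] at hemp
    apply hnc
    refine hC.of_isClosed_subset (isClosed_Kq t) fun y hy => ?_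
    by_contra hyC
    have : y ∈ U ∩ Kq t := ⟨hCU hyC, hy⟩
    rw [hemp] at this
    exact this
  let F : Ultrafilter X := Ultrafilter.of (cocompact X ⊓ 𝓟 (Kq t))
  have hFle : (F : Filter X) ≤ cocompact X ⊓ 𝓟 (Kq t) := Ultrafilter.of_le _
  have hF : (F : Filter X) ≤ cocompact X := hFle.trans inf_le_left
  have hK : Kq t ∈ F := by
    have := hFle.trans inf_le_right
    rwa [le_principal_iff] at this
  have hnotboth : ∀ k, r.V k ∈ F → r.U k ∉ F := by
    intro k h1 h2
    obtain ⟨y, hy1, hy2⟩ := F.nonempty_of_mem (Filter.inter_mem h1 h2)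
    exact r.asymm _ _ hy1 hy2
  have hmax : ∀ k ∈ Kq t, r.V k ∈ F → ∃ k' ∈ Kq t, r.lt k k' ∧ r.V k' ∈ F := by
    intro k hk hV
    have e := Kq_eq hk
    rw [← e]
    exact noMaxS r hF (by rw [e]; exact hK) hV
  have hmin : ∀ k ∈ Kq t, r.U k ∈ F → ∃ k' ∈ Kq t, r.lt k' k ∧ r.U k' ∈ F := by
    intro k hk hV
    have e := Kq_eq hk
    rw [← e]
    exact noMaxS r.rev hF (by rw [e]; exact hK) hV
  by_cases hS : ∃ s0 ∈ Kq t, r.V s0 ∈ F
  · by_cases hS' : ∃ s1 ∈ Kq t, r.U s1 ∈ F
    · exfalso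
      obtain ⟨s0, hs0, hs0F⟩ := hS
      obtain ⟨s1, hs1, hs1F⟩ := hS'
      let O : Set X := ⋃ s ∈ {s | s ∈ Kq t ∧ r.V s ∈ F}, r.U s
      have hO : Oᶜ = ⋃ s ∈ {s | s ∈ Kq t ∧ r.U s ∈ F}, r.V s := by
        ext x
        simp only [O, mem_compl_iff, mem_iUnion, mem_ofPred_eq, not_exists, exists_prop]
        constructor
        · intro h
          by_cases hx : x ∈ Kq t
          · rcases UV r hF x with hxV | hxU
            · obtain ⟨s, hs, hxs, hsF⟩ := hmax x hx hxV
              exact absurd ⟨⟨hs, hsF⟩, hxs⟩ (h s)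
            · obtain ⟨s, hs, hxs, hsF⟩ := hmin x hx hxU
              exact ⟨s, ⟨hs, hsF⟩, hxs⟩
          · have h1 : ¬ r.lt x s0 := fun h' => h s0 ⟨⟨hs0, hs0F⟩, h'⟩
            have hne : x ≠ s0 := fun h' => hx (h' ▸ hs0)
            have h2 : r.lt s0 x := (r.total x s0 hne).resolve_left h1
            have hx0 : x ∉ Kq s0 := by rw [Kq_eq hs0]; exact hx
            exact ⟨s1, ⟨hs1, hs1F⟩, r.relK' hx0 h2 (by rw [Kq_eq hs0]; exact hs1)⟩
        · rintro ⟨s', ⟨hs', hs'F⟩, hxs'⟩ s ⟨⟨hs, hsF⟩, hxs⟩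
          obtain ⟨k, hk, hsk, hks'⟩ := F.nonempty_of_mem
            (Filter.inter_mem hK (Filter.inter_mem hsF hs'F))
          have hss' : r.lt s s' := r.transK hk hs hsk hks'
          by_cases hx : x ∈ Kq t
          · exact r.asymm _ _ hss' (r.transK hx hs' hxs' hxs)
          · have hx0 : x ∉ Kq s' := by rw [Kq_eq hs']; exact hx
            have := r.relK' hx0 hxs' (y' := s) (by rw [Kq_eq hs']; exact hs)
            exact r.asymm _ _ this hxs
      have hOc : IsClopen O := by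
        refine ⟨?_, isOpen_biUnion fun s _ => r.isOpen_U s⟩
        rw [← isOpen_compl_iff, hO]
        exact isOpen_biUnion fun s _ => r.isOpen_V s
      have h0 : s0 ∈ O := by
        obtain ⟨s, hs, h1, h2⟩ := hmax s0 hs0 hs0F
        simp only [O, mem_iUnion]
        exact ⟨s, ⟨hs, h2⟩, h1⟩
      have h1 : s1 ∈ Oᶜ := by
        rw [hO]
        obtain ⟨s, hs, h1, h2⟩ := hmin s1 hs1 hs1F
        simp only [mem_iUnion]
        exact ⟨s, ⟨hs, h2⟩, h1⟩
      exact h1 (Kq_sub hs0 hOc h0 hs1)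
    · left
      push Not at hS'
      intro k hk
      obtain ⟨k', h1, h2, -⟩ := hmax k hk ((UV r hF k).resolve_right (hS' k hk))
      exact ⟨k', h1, h2⟩
  · right
    push Not at hS
    intro k hk
    obtain ⟨k', h1, h2, -⟩ := hmin k hk ((UV r hF k).resolve_left (hS k hk))
    exact ⟨k', h1, h2⟩

omit [T2Space X] [LocallyCompactSpace X] in
/-- case 2 -/
lemma case2 (r : CWS X) {t : X} (hmax : ∀ k ∈ Kq t, ∃ k' ∈ Kq t, r.lt k k') :
    ∃ r' : CWS X, Kingless r' := by
  let B : Set X := r.V t ∩ (Kq t)ᶜ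
  have hBc : Bᶜ = ⋃ k ∈ Kq t, r.U k := by
    ext x
    simp only [B, mem_compl_iff, mem_inter_iff, mem_iUnion, exists_prop]
    constructor
    · intro h
      by_cases hx : x ∈ Kq t
      · exact hmax x hx
      · have h1 : ¬ r.lt t x := fun h' => h ⟨h', hx⟩
        have hne : x ≠ t := fun h' => hx (h' ▸ self_mem_Kq t)
        exact ⟨t, self_mem_Kq t, (r.total x t hne).resolve_right h1⟩
    · rintro ⟨k, hk, hxk⟩ ⟨h1, h2⟩
      exact r.asymm _ _ hxk (r.relK' h2 h1 hk)
  have hB : IsClopen B := by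
    refine ⟨?_, (r.isOpen_V t).inter (isClosed_Kq t).isOpen_compl⟩
    rw [← isOpen_compl_iff, hBc]
    exact isOpen_biUnion fun k _ => r.isOpen_U k
  have hKB : ∀ k ∈ Kq t, k ∉ B := fun k hk h => h.2 hk
  refine ⟨r.below B hB, ?_⟩
  intro z
  by_cases hzK : z ∈ Kq t
  · obtain ⟨x, hx, hzx⟩ := hmax z hzK
    refine ⟨x, ?_⟩
    rintro y (rfl | h)
    · exact Or.inr ⟨by simp [hKB _ hx, hKB _ hzK], hzx⟩
    · rcases h with h | h
      · exact Or.inl ⟨h.1, hKB x hx⟩
      · have hyB : y ∉ B := fun h' => hKB z hzK (h.1.mp h')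
        refine Or.inr ⟨by simp [hKB _ hx, hyB], ?_⟩
        by_cases hy : y ∈ Kq t
        · exact r.transK hzK hy h.2 hzx
        · have hy0 : y ∉ Kq z := by rw [Kq_eq hzK]; exact hy
          exact r.relK hy0 h.2 (by rw [Kq_eq hzK]; exact hx)
  · by_cases hzB : z ∈ B
    · refine ⟨t, ?_⟩
      rintro y (rfl | h)
      · exact Or.inl ⟨hzB, hKB t (self_mem_Kq t)⟩
      · rcases h with h | h
        · exact absurd hzB h.2
        · exact Or.inl ⟨h.1.mpr hzB, hKB t (self_mem_Kq t)⟩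
    · -- `z` is below `K`
      have hzt : r.lt z t := by
        have hne : z ≠ t := fun h' => hzK (h' ▸ self_mem_Kq t)
        exact (r.total z t hne).resolve_right fun h' => hzB ⟨h', hzK⟩
      refine ⟨t, ?_⟩
      rintro y (rfl | h)
      · exact Or.inr ⟨by simp [hKB _ (self_mem_Kq t), hzB], hzt⟩
      · rcases h with h | h
        · exact Or.inl ⟨h.1, hKB t (self_mem_Kq t)⟩
        · have hyB : y ∉ B := fun h' => hzB (h.1.mp h')
          refine Or.inr ⟨by simp [hKB _ (self_mem_Kq t), hyB], ?_⟩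
          have hyK : y ∉ Kq t := by
            intro hy
            exact r.asymm _ _ h.2 (r.relK hzK hzt hy)
          have hne : y ≠ t := fun h' => hyK (h' ▸ self_mem_Kq t)
          exact (r.total y t hne).resolve_right fun h' => hyB ⟨h', hyK⟩

end Pool.Agent.Q151.King
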